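import Mathlib
import Pool.Graph.R_seed8.Y863.AR.CoreR
import Pool.Graph.R_seed8.Y827.RO.LamR

/-!
# The iterated equations with the exponents `(e' - e) k`, for almost all `k`: the core theorem at one
scale

The coloured Maynard-Tao theorem with the constant `18 / 5` (`Pool.Agent.Y827.RO.lamR0`), the lemma on
homothetic copies (`Pool.Agent.Y863.AA.copy`, from the density Hales-Jewett theorem) and the lemmas on
rational iterates (`Pool.Agent.W25.IT.Rat`) are from the library.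
-/

set_option autoImplicit false
set_option maxHeartbeats 1000000

namespace Pool.Agent.H55.AE

open Finset Filter Pool.Agent.W25.IT Pool.Agent.W25.IT.Rat Pool.Agent.Y863.AA Pool.Agent.Y863.AR Nat
open Pool.Agent.Y827.RO Pool.Agent.Y827.GS

/-- the exponents `e g * k` miss a class modulo every bad prime -/
def MissK {T : ℕ} (e : Fin T → ℕ) (a b c : ℤ) (k : ℕ) : Prop :=
  ∀ p : ℕ, p.Prime → 3 ≤ p → (p : ℤ) ∣ a - b → ¬ (p : ℤ) ∣ c → ∃ r : ℕ, ∀ g, ¬ e g * k ≡ r [MOD p]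

open Classical in
/-- no `M + 1` of the exponents have differences whose products with `k` are good -/
def NoClK {T : ℕ} (M : ℕ) (e : Fin T → ℕ) (a b c : ℤ) (k : ℕ) (Y y x : ℝ) : Prop :=
  ¬ ∃ S : Finset (Fin T), M + 1 ≤ S.card ∧ ∀ g ∈ S, ∀ h ∈ S, g < h →
    Y ≤ (cntR a b c ((e h - e g) * k) y x : ℝ)

theorem scaleL (D n : ℕ) (hD : 1 ≤ D) (c : ℝ) (hc : 0 < c) :
    ∀ᶠ X : ℕ in atTop, (X : ℝ) / (2 * D) ≤ (X / D : ℕ) ∧
      (X : ℝ) / (Real.log X) ^ (n + 1) ≤
        c * (((X / D : ℕ) : ℝ) / (Real.log ((X / D : ℕ) : ℝ)) ^ n) := by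
  have hDr : (1 : ℝ) ≤ D := by exact_mod_cast hD
  have hlog : ∀ᶠ X : ℕ in atTop, max (2 * D / c) 1 ≤ Real.log X :=
    (Real.tendsto_log_atTop.comp tendsto_natCast_atTop_atTop).eventually_ge_atTop _
  filter_upwards [hlog, eventually_ge_atTop (3 * D)] with X hX hX2
  have hX1 : 2 * D / c ≤ Real.log X := (le_max_left _ _).trans hX
  have hX0 : 1 ≤ Real.log X := (le_max_right _ _).trans hX
  have h3 := Nat.lt_div_mul_add (a := X) hD
  have h4 : 3 ≤ X / D := (Nat.le_div_iff_mul_le hD).2 hX2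
  have h5 : (X : ℝ) < ((X / D : ℕ) : ℝ) * D + D := by exact_mod_cast h3
  obtain ⟨N, hN⟩ : ∃ N : ℕ, N = X / D := ⟨_, rfl⟩
  rw [← hN] at h4 h5 ⊢
  have h6 : (3 : ℝ) ≤ (N : ℝ) := by exact_mod_cast h4
  have h7 : (X : ℝ) / (2 * D) ≤ N := by
    rw [div_le_iff₀ (by positivity)]
    nlinarith
  refine ⟨h7, ?_⟩
  have hNX : (N : ℝ) ≤ X := by
    rw [hN]; exact_mod_cast Nat.div_le_self X D
  have hl1 : Real.log N ≤ Real.log X := Real.log_le_log (by linarith) hNX
  have hl0 : 0 < Real.log N := Real.log_pos (by linarith)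
  have hXr : (0 : ℝ) ≤ X := Nat.cast_nonneg _
  calc (X : ℝ) / (Real.log X) ^ (n + 1) = (X / (Real.log X) ^ n) * (1 / Real.log X) := by
        rw [pow_succ]; field_simp
    _ ≤ (X / (Real.log X) ^ n) * (c / (2 * D)) := by
        apply mul_le_mul_of_nonneg_left _ (by positivity)
        rw [div_le_div_iff₀ (by linarith) (by positivity)]
        rw [div_le_iff₀ hc] at hX1
        linarith
    _ = c * ((X / (2 * D)) / (Real.log X) ^ n) := by field_simp
    _ ≤ c * (N / (Real.log X) ^ n) := by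
        apply mul_le_mul_of_nonneg_left _ hc.le
        exact div_le_div_of_nonneg_right h7 (by positivity)
    _ ≤ c * (N / (Real.log N) ^ n) := by
        apply mul_le_mul_of_nonneg_left _ hc.le
        apply div_le_div_of_nonneg_left (by positivity) (by positivity)
        exact pow_le_pow_left₀ hl0.le hl1 n

theorem filt_le (Q : ℤ → Prop) (inst : DecidablePred Q) (I : Finset ℤ) :
    (@Finset.filter ℤ Q inst I).card ≤ I.card := by
  apply Finset.card_le_card
  intro x hx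
  exact (Finset.mem_filter.1 hx).1

open Classical in
/-- **The core theorem.** -/
theorem coreK (T M : ℕ) (hTM : (18 / 5 : ℝ) * M < T) : ∃ C : ℕ, ∀ (m : ℕ) (e : Fin T → ℕ),
    StrictMono e → (∀ g, e g ≤ m) → ∀ ε : ℝ, 0 < ε → ∃ L : ℕ, ∀ a b : ℕ, 1 ≤ a → 1 ≤ b →
    IsCoprime (a : ℤ) b → ∀ u H : ℕ, L ≤ H → ∃ B : ℕ, 1 ≤ B ∧
    ∀ᶠ X : ℕ in atTop, ∀ c : ℤ, c ≠ 0 → Q0 a b c → (B : ℤ) * |c| ≤ X →
      (((Ioc (u : ℤ) (u + H)).filter (fun k : ℤ => MissK e a b c k.toNat ∧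
        NoClK M e a b c k.toNat ((X : ℝ) / (Real.log X) ^ C) (X / B) X)).card : ℝ) ≤ ε * H := by
  have hT : 1 ≤ T := by
    have h1 : (0 : ℝ) ≤ (18 / 5 : ℝ) * M := by positivity
    have h2 : (0 : ℝ) < T := lt_of_le_of_lt h1 hTM
    exact_mod_cast h2
  obtain ⟨K, hK, δ, -, hex⟩ := lamR0 T M hT hTM
  refine ⟨T * K + 2, fun m e he hem ε hε => ?_⟩
  have : Nonempty (Fin T) := ⟨⟨0, hT⟩⟩
  have : Nonempty (Fin K) := ⟨⟨0, hK⟩⟩
  obtain ⟨n, hn, hcopy⟩ := copy ((Fin T × Fin K) × (Fin T × Fin K)) (Finset (Fin T × Fin T)) ε hε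
  obtain ⟨q, hq⟩ : ∃ q : ℕ, q = (T * K + 2)! := ⟨_, rfl⟩
  obtain ⟨P, hP⟩ : ∃ P : ℕ, P = m ! := ⟨_, rfl⟩
  have hP1 : 0 < P := by rw [hP]; exact Nat.factorial_pos _
  have hq1 : 1 ≤ q := by rw [hq]; exact Nat.succ_le_of_lt (Nat.factorial_pos _)
  refine ⟨(n * (P * K) + 1) * q, fun a b ha hb hab u H hH => ?_⟩
  have hsize1 : q * (n * (P * K)) ≤ H := by
    refine le_trans ?_ hH
    rw [Nat.mul_comm]
    exact Nat.mul_le_mul_right _ (Nat.le_succ _)
  have hsize2 : q ≤ H := le_trans (Nat.le_mul_of_pos_left _ (Nat.succ_pos _)) hH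
  obtain ⟨E, hE⟩ : ∃ E : ℕ, E = m * (u + H) + H := ⟨_, rfl⟩
  obtain ⟨J, hJ⟩ : ∃ J : ℕ, J = E + 2 := ⟨_, rfl⟩
  obtain ⟨A, hA⟩ : ∃ A : ℕ, A = max a b := ⟨_, rfl⟩
  have haA : a ≤ A := by rw [hA]; exact le_max_left _ _
  have hbA : b ≤ A := by rw [hA]; exact le_max_right _ _
  have hA1 : 1 ≤ A := ha.trans haA
  have haz : (1 : ℤ) ≤ a := by exact_mod_cast ha
  have hbz : (1 : ℤ) ≤ b := by exact_mod_cast hb
  obtain ⟨w, hw⟩ := exists_beta (a : ℤ) b 1 (by omega) hab J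
  obtain ⟨sm, hsm⟩ : ∃ sm : ℕ, sm = ∑ i ∈ range (J + 1), (w i).natAbs := ⟨_, rfl⟩
  have hwm : ∀ i, i ≤ J → |w i| ≤ (sm : ℤ) := by
    intro i hi
    rw [hsm, Int.abs_eq_natAbs]
    exact_mod_cast single_le_sum (f := fun i => (w i).natAbs) (fun _ _ => Nat.zero_le _)
      (mem_range.2 (by omega : i < J + 1))
  have hdm : 1 ≤ A ^ J := Nat.one_le_pow _ _ hA1
  refine ⟨200 * (sm + 2) * A ^ J, Nat.succ_le_of_lt (by positivity), ?_⟩
  have hdivt : Tendsto (fun X : ℕ => X / (2 * A ^ J)) atTop atTop := by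
    refine tendsto_atTop.2 fun b => ?_
    filter_upwards [eventually_ge_atTop (b * (2 * A ^ J))] with X hX
    exact (Nat.le_div_iff_mul_le (by omega)).2 hX
  obtain ⟨s₀, cc, hcc, hex⟩ := hex (A ^ J)
  filter_upwards [hdivt.eventually hex, scaleL (2 * A ^ J) (T * K + 1) (by omega) cc hcc,
    eventually_ge_atTop 1, hdivt.eventually (eventually_ge_atTop 1)]
    with X hN hsc hX1 hN1 c hc0 hQ hCX
  obtain ⟨N, hNdef⟩ : ∃ N : ℕ, N = X / (2 * A ^ J) := ⟨_, rfl⟩
  rw [← hNdef] at hN hsc hN1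
  by_contra hcon
  push Not at hcon
  obtain ⟨Bad, hBad⟩ : ∃ Bad : Finset ℤ, Bad = (Ioc (u : ℤ) (u + H)).filter (fun k : ℤ =>
    MissK e a b c k.toNat ∧ NoClK M e a b c k.toNat ((X : ℝ) / (Real.log X) ^ (T * K + 2))
      (X / ((200 * (sm + 2) * A ^ J : ℕ) : ℝ)) X) := ⟨_, rfl⟩
  rw [← hBad] at hcon
  have hej : ∀ g h : Fin T, g < h → 1 ≤ e h - e g ∧ e h - e g ≤ m := by
    intro g h hgh
    have h1 := he hgh
    have h2 := hem h
    constructor <;> omega
  -- the shape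
  obtain ⟨v, hv⟩ : ∃ v : (Fin T × Fin K) × (Fin T × Fin K) → ℤ, v = fun z =>
    if z.1.1 < z.2.1 then (P : ℤ) / ((e z.2.1 - e z.1.1 : ℕ) : ℤ) *
      (((z.2.2 : ℕ) : ℤ) - ((z.1.2 : ℕ) : ℤ)) else 0 := ⟨_, rfl⟩
  have hvb : ∀ z, |v z| ≤ ((P * K : ℕ) : ℤ) := by
    intro z
    rw [hv]
    simp only
    split_ifs with hz
    · rw [abs_mul]
      have h1 : |(P : ℤ) / ((e z.2.1 - e z.1.1 : ℕ) : ℤ)| ≤ P := by
        rw [abs_of_nonneg (Int.ediv_nonneg (Nat.cast_nonneg _) (Nat.cast_nonneg _))]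
        exact Int.ediv_le_self _ (Nat.cast_nonneg _)
      have h2 : |((z.2.2 : ℕ) : ℤ) - ((z.1.2 : ℕ) : ℤ)| ≤ K := by
        have h3 := z.2.2.2
        have h4 := z.1.2.2
        rw [abs_le]
        constructor <;> omega
      calc |(P : ℤ) / ((e z.2.1 - e z.1.1 : ℕ) : ℤ)| * |((z.2.2 : ℕ) : ℤ) - ((z.1.2 : ℕ) : ℤ)|
          ≤ P * K := mul_le_mul h1 h2 (abs_nonneg _) (Nat.cast_nonneg _)
        _ = _ := by push_cast; ring
    · rw [abs_zero]; exact Nat.cast_nonneg _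
  obtain ⟨x, l, G, hl1, hln, hx⟩ := hcopy (fun _ => True) q u (fun _ _ _ _ _ _ => trivial) hq1 v
    (P * K) hvb H ((Nat.le_div_iff_mul_le (by omega)).2 (by
      calc n * (P * K) * q = q * (n * (P * K)) := by ring
        _ ≤ H := hsize1)) hsize2 Bad (by rw [hBad]; exact filter_subset _ _)
    (fun _ _ => trivial)
    (fun k => univ.filter (fun z : Fin T × Fin T => z.1 < z.2 ∧
      (X : ℝ) / (Real.log X) ^ (T * K + 2) ≤ (cntR a b c ((e z.2 - e z.1) * k.toNat)
        (X / ((200 * (sm + 2) * A ^ J : ℕ) : ℝ)) X : ℝ))) (by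
      have h1 : ((u : ℤ) + H - u).toNat = H := by omega
      refine lt_of_le_of_lt (mul_le_mul_of_nonneg_left ?_ hε.le) hcon
      rw [Nat.cast_le]
      refine le_trans (filt_le _ _ _) ?_
      rw [Int.card_Ioc, h1])
  -- the base point
  have hx0 := hx ((Classical.arbitrary _, Classical.arbitrary _),
    (Classical.arbitrary _, Classical.arbitrary _))
  have hv0 : v ((Classical.arbitrary (Fin T), Classical.arbitrary (Fin K)),
      (Classical.arbitrary (Fin T), Classical.arbitrary (Fin K))) = 0 := by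
    rw [hv]; simp
  rw [hv0, mul_zero, mul_zero, add_zero] at hx0
  obtain ⟨hxB, hxG⟩ := hx0
  obtain ⟨hxI, hxE, hxN⟩ := mem_filter.1 (by rw [hBad] at hxB; exact hxB)
  have hxI' := mem_Ioc.1 hxI
  have hxn : ((x.toNat : ℕ) : ℤ) = x := Int.toNat_of_nonneg (by omega)
  -- the exponents
  obtain ⟨s, hs⟩ : ∃ s : Fin T → Fin K → ℕ, s = fun (g : Fin T) (i : Fin K) =>
    e g * x.toNat + l * (q * (P * (i : ℕ))) := ⟨_, rfl⟩
  have hsE : ∀ g i, s g i ≤ E := by
    intro g i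
    rw [hs, hE]
    have h1 : x.toNat ≤ u + H := by omega
    have h2 : e g * x.toNat ≤ m * (u + H) := Nat.mul_le_mul (hem g) h1
    have h3 : l * (q * (P * (i : ℕ))) ≤ H := by
      refine le_trans ?_ hsize1
      calc l * (q * (P * (i : ℕ))) ≤ n * (q * (P * K)) :=
            Nat.mul_le_mul hln (Nat.mul_le_mul_left _ (Nat.mul_le_mul_left _ i.2.le))
        _ = q * (n * (P * K)) := by ring
    exact Nat.add_le_add h2 h3
  have hcross : ∀ (g h : Fin T) (i k : Fin K), g < h →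
      s h k = s g i + (e h - e g) * (x + l * (q * v ((g, i), (h, k)))).toNat ∧
      1 ≤ (e h - e g) * (x + l * (q * v ((g, i), (h, k)))).toNat := by
    intro g h i k hgh
    obtain ⟨hj1, hj2⟩ := hej g h hgh
    obtain ⟨y, hy⟩ : ∃ y, y = x + l * (q * v ((g, i), (h, k))) := ⟨_, rfl⟩
    have hyB := (hx ((g, i), (h, k))).1
    rw [← hy] at hyB ⊢
    rw [hBad] at hyB
    have hyI := mem_Ioc.1 (mem_filter.1 hyB).1
    have hyn : ((y.toNat : ℕ) : ℤ) = y := Int.toNat_of_nonneg (by omega)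
    have hy1 : 1 ≤ y.toNat := by omega
    refine ⟨?_, Nat.mul_pos hj1 hy1⟩
    obtain ⟨j, hj⟩ : ∃ j, j = e h - e g := ⟨_, rfl⟩
    rw [← hj] at hj1 hj2 ⊢
    have h2 : (P : ℤ) = (j : ℤ) * ((P : ℤ) / j) := by
      rw [hP]
      exact (Int.mul_ediv_cancel' (by exact_mod_cast Nat.dvd_factorial hj1 hj2)).symm
    have h3 : y = x + l * (q * ((P : ℤ) / j * (((k : ℕ) : ℤ) - ((i : ℕ) : ℤ)))) := by
      rw [hy, hv]
      simp only [if_pos hgh]
      rw [hj]
    have h4 : ((e h : ℕ) : ℤ) = e g + j := by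
      have := he hgh
      omega
    have h5 : ((s h k : ℕ) : ℤ) = s g i + j * (y.toNat : ℕ) := by
      rw [hs, hyn, h3]
      push_cast
      rw [hxn, h4]
      generalize (P : ℤ) / j = R at h2 ⊢
      rw [h2]
      ring
    exact_mod_cast h5
  have hinj : ∀ (g h : Fin T) (i k : Fin K), s g i = s h k → g = h ∧ i = k := by
    intro g h i k h3
    rcases lt_trichotomy g h with hgh | hgh | hgh
    · have := hcross g h i k hgh
      omega
    · subst hgh
      refine ⟨rfl, ?_⟩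
      rw [hs] at h3
      simp only at h3
      have h4 := Nat.add_left_cancel h3
      have h5 := Nat.eq_of_mul_eq_mul_left hP1 (Nat.eq_of_mul_eq_mul_left (by omega)
        (Nat.eq_of_mul_eq_mul_left (by omega) h4))
      exact Fin.ext h5
    · have := hcross h g k i hgh
      omega
  -- the orbit
  obtain ⟨β, hβdef⟩ : ∃ β : ℕ → ℤ, β = fun i => c * w i := ⟨_, rfl⟩
  have hβ : ∀ i < J, (a : ℤ) * β (i + 1) = b * β i + c := by
    intro i hi
    rw [hβdef]
    show (a : ℤ) * (c * w (i + 1)) = b * (c * w i) + c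
    linear_combination c * hw i hi
  have hsJ : ∀ g i, 1 ≤ s g i + 1 ∧ s g i + 1 < J := fun g i => ⟨by omega, by
    have := hsE g i; omega⟩
  -- the forms
  obtain ⟨D, hD⟩ : ∃ D : Fin T → Fin K → ℤ, D = fun g i =>
    (a : ℤ) ^ (J - (s g i + 1)) * (b : ℤ) ^ (s g i + 1) := ⟨_, rfl⟩
  have hDle : ∀ g i, (1 : ℤ) ≤ D g i ∧ D g i ≤ (A : ℤ) ^ J := by
    intro g i
    have hDg : D g i = (a : ℤ) ^ (J - (s g i + 1)) * (b : ℤ) ^ (s g i + 1) := by rw [hD]
    rw [hDg]
    constructor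
    · exact_mod_cast Nat.mul_pos (Nat.one_le_pow (J - (s g i + 1)) _ ha)
        (Nat.one_le_pow (s g i + 1) _ hb)
    · have h1 : a ^ (J - (s g i + 1)) * b ^ (s g i + 1) ≤ A ^ J := by
        calc a ^ (J - (s g i + 1)) * b ^ (s g i + 1) ≤
              A ^ (J - (s g i + 1)) * A ^ (s g i + 1) :=
              Nat.mul_le_mul (Nat.pow_le_pow_left haA _) (Nat.pow_le_pow_left hbA _)
          _ = A ^ J := by
              rw [← pow_add]
              congr 1
              have := (hsJ g i).2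
              omega
      exact_mod_cast h1
  have hbb : ∀ g i, 100 * |β (s g i + 1)| ≤ N := by
    intro g i
    have h1 : |β (s g i + 1)| ≤ |c| * sm := by
      rw [hβdef]
      show |c * w (s g i + 1)| ≤ _
      rw [abs_mul]
      exact mul_le_mul_of_nonneg_left (hwm _ (hsJ g i).2.le) (abs_nonneg _)
    have h2 : (100 * (|c| * sm)) * (2 * (A : ℤ) ^ J) ≤ X := by
      refine le_trans ?_ hCX
      push_cast
      have h3 : (0 : ℤ) ≤ |c| * (A : ℤ) ^ J := by positivity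
      nlinarith
    have h4 : (100 * (|c| * sm)) ≤ (N : ℤ) := by
      have h5 : (N : ℤ) = (X : ℤ) / (2 * (A : ℤ) ^ J) := by rw [hNdef]; push_cast; rfl
      rw [h5]
      have h6 : (1 : ℤ) ≤ (A : ℤ) ^ J := by exact_mod_cast hdm
      exact (Int.le_ediv_iff_mul_le (by linarith)).2 h2
    linarith
  have hN0 : (0 : ℝ) < N := by exact_mod_cast hN1
  have hbr : ∀ g i, |(β (s g i + 1) : ℝ)| ≤ N / 100 := by
    intro g i
    have h1 : (100 : ℝ) * |(β (s g i + 1) : ℝ)| ≤ N := by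
      have h2 := hbb g i
      have h3 : ((100 * |β (s g i + 1)| : ℤ) : ℝ) ≤ N := by exact_mod_cast h2
      rw [Int.cast_mul, Int.cast_abs] at h3
      exact_mod_cast h3
    linarith
  have hvalue : ∀ g i, ∀ y : ℝ, (N : ℝ) / 16 ≤ y →
      (N : ℝ) / 24 ≤ (D g i : ℝ) * y + (β (s g i + 1) : ℝ) := by
    intro g i y hy
    have h1 := abs_le.1 (hbr g i)
    have h2 : (1 : ℝ) ≤ (D g i : ℝ) := by exact_mod_cast (hDle g i).1
    have h3 : y ≤ (D g i : ℝ) * y := le_mul_of_one_le_left (by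
      have : (0 : ℝ) ≤ (N : ℝ) / 16 := by positivity
      linarith) h2
    linarith [h1.1]
  -- the local condition
  have hloc : ∀ p : ℕ, p.Prime → ∃ y : ℤ, ∀ g i, ¬ (p : ℤ) ∣ D g i * y + β (s g i + 1) := by
    intro p hp
    have hpp := Nat.prime_iff_prime_int.1 hp
    obtain ⟨y, hy⟩ := rat_admissible (ι := Fin T × Fin K) hab hQ.1 hQ.2.1 hQ.2.2 hβ
      (fun z => s z.1 z.2 + 1) (fun z => hsJ z.1 z.2) hp (by
      intro hp3 hp1 hpc
      obtain ⟨hpa, hpb⟩ := bad_not_dvd hab hp hp1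
      by_cases hpq : p ∣ q
      · obtain ⟨r, hr⟩ := hxE p hp hp3 hp1 hpc
        refine rat_miss hβ (fun z : Fin T × Fin K => s z.1 z.2 + 1)
          (fun z => (hsJ z.1 z.2).2.le) hp hpa hp1 hpc (r + 1) ?_
        rintro ⟨g, i⟩ h
        have h := Nat.ModEq.add_right_cancel' 1 h
        apply hr g
        refine Nat.ModEq.trans ?_ h
        show e g * x.toNat ≡ s g i [MOD p]
        rw [hs]
        show e g * x.toNat ≡ e g * x.toNat + l * (q * (P * (i : ℕ))) [MOD p]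
        have h1 : p ∣ l * (q * (P * (i : ℕ))) := Dvd.dvd.mul_left (Dvd.dvd.mul_right hpq _) _
        exact ((Nat.modEq_zero_iff_dvd.2 h1).add_left _).symm
      · have hpK : T * K < p := by
          by_contra hle
          push Not at hle
          apply hpq
          rw [hq]
          exact Nat.dvd_factorial hp.pos (by omega)
        exact avoid (ι := Fin T × Fin K)
          (fun z => (a : ℤ) ^ (J - (s z.1 z.2 + 1)) * (b : ℤ) ^ (s z.1 z.2 + 1))
          (fun z => β (s z.1 z.2 + 1)) hp (by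
            intro z hz
            rcases hpp.dvd_or_dvd hz with h1 | h1
            · exact hpa (hpp.dvd_of_dvd_pow h1)
            · exact hpb (hpp.dvd_of_dvd_pow h1)) (by
            rw [Fintype.card_prod, Fintype.card_fin, Fintype.card_fin]; exact hpK))
    refine ⟨y, fun g i => ?_⟩
    rw [hD]
    exact hy (g, i)
  have hcop : ∀ g i, IsCoprime (D g i) (β (s g i + 1)) := by
    intro g i
    rw [Int.isCoprime_iff_gcd_eq_one]
    by_contra hne
    obtain ⟨p, hp, hpd⟩ := Nat.exists_prime_and_dvd hne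
    have h1 : (p : ℤ) ∣ (Int.gcd (D g i) (β (s g i + 1)) : ℤ) := Int.natCast_dvd_natCast.2 hpd
    obtain ⟨n, hn⟩ := hloc p hp
    exact hn g i (dvd_add (Dvd.dvd.mul_right (h1.trans (Int.gcd_dvd_left _ _)) _)
      (h1.trans (Int.gcd_dvd_right _ _)))
  obtain ⟨_, S, σ, -, -, -, hS, hcard⟩ := hN (fun g i => (D g i, β (s g i + 1))) (by
      rintro ⟨g, i⟩ ⟨h, k⟩ heq
      simp only at heq
      obtain ⟨h1, h2⟩ := Prod.ext_iff.1 heq
      simp only at h1 h2
      rw [hD] at h1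
      have h3 := forms_inj haz hbz hc0 hab hβ (hsJ g i).2.le (hsJ h k).2.le h1 h2
      obtain ⟨h4, h5⟩ := hinj g h i k (by omega)
      rw [h4, h5])
    (by
      intro g i
      refine ⟨by have := (hDle g i).1; show D g i ≠ 0; omega, ?_, ?_, hcop g i, ?_⟩
      · show |D g i| ≤ _
        rw [abs_of_nonneg (by have := (hDle g i).1; omega)]
        have := (hDle g i).2
        push_cast
        exact this
      · have h1 := hbb g i
        have h2 : (0 : ℤ) ≤ |β (s g i + 1)| := abs_nonneg _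
        show |β (s g i + 1)| ≤ N
        linarith
      · intro t ht1 _
        exact hvalue g i t ht1)
    (fun p hp _ => hloc p hp)
  -- the clique
  apply hxN
  refine ⟨S, hS, fun g hg h hh hgh => ?_⟩
  have hz := (hx ((g, σ g), (h, σ h))).2
  have hmem : (g, h) ∈ G := by
    rw [← hz]
    refine mem_filter.2 ⟨mem_univ _, hgh, ?_⟩
    refine hsc.2.trans (hcard.trans ?_)
    rw [Nat.cast_le]
    simp only
    obtain ⟨hcr, hcr1⟩ := hcross g h (σ g) (σ h) hgh
    obtain ⟨j, hj⟩ : ∃ j, j = (e h - e g) * (x + l * (q * v ((g, σ g), (h, σ h)))).toNat :=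
      ⟨_, rfl⟩
    rw [← hj] at hcr hcr1 ⊢
    refine cnt_geR _ (a : ℤ) b c j (D g (σ g)) (β (s g (σ g) + 1)) (D h (σ h))
      (β (s h (σ h) + 1)) (by have := (hDle g (σ g)).1; omega) _ _ ?_ ?_
    · intro y
      have h3 := LL_iter hβ y (s g (σ g) + 1) j (by have := (hsJ h (σ h)).2; omega)
      rw [show s g (σ g) + 1 + j = s h (σ h) + 1 by omega] at h3
      unfold LL at h3
      rw [hD]
      linear_combination h3
    intro y hy
    unfold Rs at hy
    obtain ⟨hyI, hy1, -, -, hy3⟩ := mem_filter.1 hy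
    have hy2 : (y : ℝ) ≤ N := by exact_mod_cast (mem_Icc.1 hyI).2
    have hyv := hvalue g (σ g) y hy1
    have h6 : ((D g (σ g) * y + β (s g (σ g) + 1) : ℤ) : ℝ) =
        (D g (σ g) : ℝ) * y + (β (s g (σ g) + 1) : ℝ) := by
      push_cast; ring
    refine ⟨hy3 g hg, hy3 h hh, ?_, ?_⟩
    · rw [h6]
      refine le_trans ?_ hyv
      have h7 : (X : ℝ) ≤ N * (2 * ((2 * A ^ J : ℕ) : ℝ)) := (div_le_iff₀ (by positivity)).1 hsc.1
      have h8 : (0 : ℝ) < ((200 * (sm + 2) * A ^ J : ℕ) : ℝ) := by positivity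
      rw [div_le_iff₀ h8]
      push_cast at h7
      have h9 : (0 : ℝ) ≤ (N : ℝ) * (A : ℝ) ^ J := by positivity
      have h10 : (0 : ℝ) ≤ (sm : ℝ) * ((N : ℝ) * (A : ℝ) ^ J) := by positivity
      push_cast
      nlinarith
    · rw [h6]
      have h7 : (D g (σ g) : ℝ) ≤ (A : ℝ) ^ J := by exact_mod_cast (hDle g (σ g)).2
      have h8 : (N : ℝ) * (2 * (A : ℝ) ^ J) ≤ X := by
        have := Nat.div_mul_le_self X (2 * A ^ J)
        rw [← hNdef] at this
        exact_mod_cast this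
      have h9 := abs_le.1 (hbr g (σ g))
      have h10 : (1 : ℝ) ≤ (A : ℝ) ^ J := by exact_mod_cast hdm
      have h11 : (D g (σ g) : ℝ) * y ≤ (A : ℝ) ^ J * N :=
        mul_le_mul h7 hy2 (Nat.cast_nonneg _) (by positivity)
      have h12 : (N : ℝ) ≤ N * (A : ℝ) ^ J := le_mul_of_one_le_right hN0.le h10
      linarith [h9.2]
  rw [← hxG] at hmem
  have h1 := (mem_filter.1 hmem).2.2
  exact h1

end Pool.Agent.H55.AE
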